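import Pool.Agent.Helper221.Ice.Link
import Pool.Agent.Helper221.Ice.CI0
import Pool.Agent.Helper221.Ice.CI1
import Pool.Agent.Helper221.Ice.CI2
import Pool.Agent.Helper221.Ice.CE0
import Pool.Agent.Helper221.Ice.CE1

namespace Pool.Agent.Helper221.Ice

lemma certI : ∀ r0 r1 r2 r3 : Option Bool, ∃ V, chk3 V (cd r0) (cd r1) (cd r2) (cd r3) = true
  | none, none, none, none => ⟨_, cI_0000⟩
  | none, none, none, some true => ⟨_, cI_0001⟩
  | none, none, none, some false => ⟨_, cI_0002⟩
  | none, none, some true, none => ⟨_, cI_0010⟩
  | none, none, some true, some true => ⟨_, cI_0011⟩
  | none, none, some true, some false => ⟨_, cI_0012⟩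
  | none, none, some false, none => ⟨_, cI_0020⟩
  | none, none, some false, some true => ⟨_, cI_0021⟩
  | none, none, some false, some false => ⟨_, cI_0022⟩
  | none, some true, none, none => ⟨_, cI_0100⟩
  | none, some true, none, some true => ⟨_, cI_0101⟩
  | none, some true, none, some false => ⟨_, cI_0102⟩
  | none, some true, some true, none => ⟨_, cI_0110⟩
  | none, some true, some true, some true => ⟨_, cI_0111⟩
  | none, some true, some true, some false => ⟨_, cI_0112⟩
  | none, some true, some false, none => ⟨_, cI_0120⟩
  | none, some true, some false, some true => ⟨_, cI_0121⟩
  | none, some true, some false, some false => ⟨_, cI_0122⟩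
  | none, some false, none, none => ⟨_, cI_0200⟩
  | none, some false, none, some true => ⟨_, cI_0201⟩
  | none, some false, none, some false => ⟨_, cI_0202⟩
  | none, some false, some true, none => ⟨_, cI_0210⟩
  | none, some false, some true, some true => ⟨_, cI_0211⟩
  | none, some false, some true, some false => ⟨_, cI_0212⟩
  | none, some false, some false, none => ⟨_, cI_0220⟩
  | none, some false, some false, some true => ⟨_, cI_0221⟩
  | none, some false, some false, some false => ⟨_, cI_0222⟩
  | some true, none, none, none => ⟨_, cI_1000⟩
  | some true, none, none, some true => ⟨_, cI_1001⟩
  | some true, none, none, some false => ⟨_, cI_1002⟩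
  | some true, none, some true, none => ⟨_, cI_1010⟩
  | some true, none, some true, some true => ⟨_, cI_1011⟩
  | some true, none, some true, some false => ⟨_, cI_1012⟩
  | some true, none, some false, none => ⟨_, cI_1020⟩
  | some true, none, some false, some true => ⟨_, cI_1021⟩
  | some true, none, some false, some false => ⟨_, cI_1022⟩
  | some true, some true, none, none => ⟨_, cI_1100⟩
  | some true, some true, none, some true => ⟨_, cI_1101⟩
  | some true, some true, none, some false => ⟨_, cI_1102⟩
  | some true, some true, some true, none => ⟨_, cI_1110⟩
  | some true, some true, some true, some true => ⟨_, cI_1111⟩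
  | some true, some true, some true, some false => ⟨_, cI_1112⟩
  | some true, some true, some false, none => ⟨_, cI_1120⟩
  | some true, some true, some false, some true => ⟨_, cI_1121⟩
  | some true, some true, some false, some false => ⟨_, cI_1122⟩
  | some true, some false, none, none => ⟨_, cI_1200⟩
  | some true, some false, none, some true => ⟨_, cI_1201⟩
  | some true, some false, none, some false => ⟨_, cI_1202⟩
  | some true, some false, some true, none => ⟨_, cI_1210⟩
  | some true, some false, some true, some true => ⟨_, cI_1211⟩
  | some true, some false, some true, some false => ⟨_, cI_1212⟩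
  | some true, some false, some false, none => ⟨_, cI_1220⟩
  | some true, some false, some false, some true => ⟨_, cI_1221⟩
  | some true, some false, some false, some false => ⟨_, cI_1222⟩
  | some false, none, none, none => ⟨_, cI_2000⟩
  | some false, none, none, some true => ⟨_, cI_2001⟩
  | some false, none, none, some false => ⟨_, cI_2002⟩
  | some false, none, some true, none => ⟨_, cI_2010⟩
  | some false, none, some true, some true => ⟨_, cI_2011⟩
  | some false, none, some true, some false => ⟨_, cI_2012⟩
  | some false, none, some false, none => ⟨_, cI_2020⟩
  | some false, none, some false, some true => ⟨_, cI_2021⟩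
  | some false, none, some false, some false => ⟨_, cI_2022⟩
  | some false, some true, none, none => ⟨_, cI_2100⟩
  | some false, some true, none, some true => ⟨_, cI_2101⟩
  | some false, some true, none, some false => ⟨_, cI_2102⟩
  | some false, some true, some true, none => ⟨_, cI_2110⟩
  | some false, some true, some true, some true => ⟨_, cI_2111⟩
  | some false, some true, some true, some false => ⟨_, cI_2112⟩
  | some false, some true, some false, none => ⟨_, cI_2120⟩
  | some false, some true, some false, some true => ⟨_, cI_2121⟩
  | some false, some true, some false, some false => ⟨_, cI_2122⟩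
  | some false, some false, none, none => ⟨_, cI_2200⟩
  | some false, some false, none, some true => ⟨_, cI_2201⟩
  | some false, some false, none, some false => ⟨_, cI_2202⟩
  | some false, some false, some true, none => ⟨_, cI_2210⟩
  | some false, some false, some true, some true => ⟨_, cI_2211⟩
  | some false, some false, some true, some false => ⟨_, cI_2212⟩
  | some false, some false, some false, none => ⟨_, cI_2220⟩
  | some false, some false, some false, some true => ⟨_, cI_2221⟩
  | some false, some false, some false, some false => ⟨_, cI_2222⟩

lemma certE : ∀ r0 r1 r2 r3 r4 r5 : Bool,
    ∃ V, chk2 V (ce r0) (ce r1) (ce r2) (ce r3) (ce r4) (ce r5) = true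
  | false, false, false, false, false, false => ⟨_, cE_000000⟩
  | false, false, false, false, false, true => ⟨_, cE_000001⟩
  | false, false, false, false, true, false => ⟨_, cE_000010⟩
  | false, false, false, false, true, true => ⟨_, cE_000011⟩
  | false, false, false, true, false, false => ⟨_, cE_000100⟩
  | false, false, false, true, false, true => ⟨_, cE_000101⟩
  | false, false, false, true, true, false => ⟨_, cE_000110⟩
  | false, false, false, true, true, true => ⟨_, cE_000111⟩
  | false, false, true, false, false, false => ⟨_, cE_001000⟩
  | false, false, true, false, false, true => ⟨_, cE_001001⟩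
  | false, false, true, false, true, false => ⟨_, cE_001010⟩
  | false, false, true, false, true, true => ⟨_, cE_001011⟩
  | false, false, true, true, false, false => ⟨_, cE_001100⟩
  | false, false, true, true, false, true => ⟨_, cE_001101⟩
  | false, false, true, true, true, false => ⟨_, cE_001110⟩
  | false, false, true, true, true, true => ⟨_, cE_001111⟩
  | false, true, false, false, false, false => ⟨_, cE_010000⟩
  | false, true, false, false, false, true => ⟨_, cE_010001⟩
  | false, true, false, false, true, false => ⟨_, cE_010010⟩
  | false, true, false, false, true, true => ⟨_, cE_010011⟩
  | false, true, false, true, false, false => ⟨_, cE_010100⟩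
  | false, true, false, true, false, true => ⟨_, cE_010101⟩
  | false, true, false, true, true, false => ⟨_, cE_010110⟩
  | false, true, false, true, true, true => ⟨_, cE_010111⟩
  | false, true, true, false, false, false => ⟨_, cE_011000⟩
  | false, true, true, false, false, true => ⟨_, cE_011001⟩
  | false, true, true, false, true, false => ⟨_, cE_011010⟩
  | false, true, true, false, true, true => ⟨_, cE_011011⟩
  | false, true, true, true, false, false => ⟨_, cE_011100⟩
  | false, true, true, true, false, true => ⟨_, cE_011101⟩
  | false, true, true, true, true, false => ⟨_, cE_011110⟩
  | false, true, true, true, true, true => ⟨_, cE_011111⟩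
  | true, false, false, false, false, false => ⟨_, cE_100000⟩
  | true, false, false, false, false, true => ⟨_, cE_100001⟩
  | true, false, false, false, true, false => ⟨_, cE_100010⟩
  | true, false, false, false, true, true => ⟨_, cE_100011⟩
  | true, false, false, true, false, false => ⟨_, cE_100100⟩
  | true, false, false, true, false, true => ⟨_, cE_100101⟩
  | true, false, false, true, true, false => ⟨_, cE_100110⟩
  | true, false, false, true, true, true => ⟨_, cE_100111⟩
  | true, false, true, false, false, false => ⟨_, cE_101000⟩
  | true, false, true, false, false, true => ⟨_, cE_101001⟩
  | true, false, true, false, true, false => ⟨_, cE_101010⟩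
  | true, false, true, false, true, true => ⟨_, cE_101011⟩
  | true, false, true, true, false, false => ⟨_, cE_101100⟩
  | true, false, true, true, false, true => ⟨_, cE_101101⟩
  | true, false, true, true, true, false => ⟨_, cE_101110⟩
  | true, false, true, true, true, true => ⟨_, cE_101111⟩
  | true, true, false, false, false, false => ⟨_, cE_110000⟩
  | true, true, false, false, false, true => ⟨_, cE_110001⟩
  | true, true, false, false, true, false => ⟨_, cE_110010⟩
  | true, true, false, false, true, true => ⟨_, cE_110011⟩
  | true, true, false, true, false, false => ⟨_, cE_110100⟩
  | true, true, false, true, false, true => ⟨_, cE_110101⟩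
  | true, true, false, true, true, false => ⟨_, cE_110110⟩
  | true, true, false, true, true, true => ⟨_, cE_110111⟩
  | true, true, true, false, false, false => ⟨_, cE_111000⟩
  | true, true, true, false, false, true => ⟨_, cE_111001⟩
  | true, true, true, false, true, false => ⟨_, cE_111010⟩
  | true, true, true, false, true, true => ⟨_, cE_111011⟩
  | true, true, true, true, false, false => ⟨_, cE_111100⟩
  | true, true, true, true, false, true => ⟨_, cE_111101⟩
  | true, true, true, true, true, false => ⟨_, cE_111110⟩
  | true, true, true, true, true, true => ⟨_, cE_111111⟩

end Pool.Agent.Helper221.Ice
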