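import Mathlib.Data.Nat.Basic

/-! Numerical certificates for the row matrices (all computations on natural numbers, checked by the
kernel). States are coded by `0, 1, 2` (unoriented, positive, negative) or `0, 1` (negative, positive). -/

namespace Pool.Agent.Helper221.Ice

/-- table of the vertices that can be completed by an upper edge (ice rule) -/
def tb3 (c s r a t : ℕ) : Bool :=
  Nat.beq (Nat.mod (Nat.div 0x0008b442282ddd44776808a0b7702c001a77069614477681dc1a586816000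
    (Nat.pow 2 (Nat.add c (Nat.mul 3 (Nat.add s (Nat.mul 3 (Nat.add r (Nat.mul 3 (Nat.add a (Nat.mul 3 t)))))))))) 2) 1

def S3 (g : ℕ → ℕ) : ℕ := Nat.add (g 0) (Nat.add (g 1) (g 2))
def A3 (g : ℕ → Bool) : Bool := and (g 0) (and (g 1) (g 2))
def J3 (x : ℕ) : ℕ := Nat.mod (Nat.mul 2 x) 3

/-- entry of the vector coded by `V` -/
def ent3 (V c0 c1 c2 c3 : ℕ) : ℕ :=
  Nat.mod (Nat.div V (Nat.pow 2 (Nat.mul 12 (Nat.add c0 (Nat.mul 3 (Nat.add c1 (Nat.mul 3 (Nat.add c2 (Nat.mul 3 c3))))))))) 4096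

def row3 (V r0 r1 r2 r3 a0 a1 a2 a3 : ℕ) : ℕ :=
  S3 fun t => S3 fun s0 => S3 fun c0 => bif tb3 c0 s0 r0 a0 t then
    (S3 fun s1 => S3 fun c1 => bif tb3 c1 s1 r1 a1 s0 then
      (S3 fun s2 => S3 fun c2 => bif tb3 c2 s2 r2 a2 s1 then
        (S3 fun c3 => bif tb3 c3 t r3 a3 s2 then ent3 V c0 c1 c2 c3 else 0) else 0) else 0) else 0

def chk3 (V r0 r1 r2 r3 : ℕ) : Bool :=
  A3 fun a0 => A3 fun a1 => A3 fun a2 => A3 fun a3 =>
    and (Nat.ble (row3 V r0 r1 r2 r3 a0 a1 a2 a3)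
      (Nat.mul 193 (ent3 V (J3 a0) (J3 a1) (J3 a2) (J3 a3)))) (Nat.ble 1 (ent3 V a0 a1 a2 a3))

/-- table of the vertices that can be completed by an upper edge (Eulerian orientations) -/
def tb2 (c s r a t : ℕ) : Bool :=
  Nat.beq (Nat.mod (Nat.div 0x8ee7e771
    (Nat.pow 2 (Nat.add c (Nat.mul 2 (Nat.add s (Nat.mul 2 (Nat.add r (Nat.mul 2 (Nat.add a (Nat.mul 2 t)))))))))) 2) 1

def S2 (g : ℕ → ℕ) : ℕ := Nat.add (g 0) (g 1)
def A2 (g : ℕ → Bool) : Bool := and (g 0) (g 1)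
def J2 (x : ℕ) : ℕ := Nat.sub 1 x

/-- entry of the vector coded by `V` -/
def ent2 (V c0 c1 c2 c3 c4 c5 : ℕ) : ℕ :=
  Nat.mod (Nat.div V (Nat.pow 2 (Nat.mul 12 (Nat.add c0 (Nat.mul 2 (Nat.add c1 (Nat.mul 2 (Nat.add c2 (Nat.mul 2 (Nat.add c3 (Nat.mul 2 (Nat.add c4 (Nat.mul 2 c5))))))))))))) 4096

def row2 (V r0 r1 r2 r3 r4 r5 a0 a1 a2 a3 a4 a5 : ℕ) : ℕ :=
  S2 fun t => S2 fun s0 => S2 fun c0 => bif tb2 c0 s0 r0 a0 t then
    (S2 fun s1 => S2 fun c1 => bif tb2 c1 s1 r1 a1 s0 then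
      (S2 fun s2 => S2 fun c2 => bif tb2 c2 s2 r2 a2 s1 then
        (S2 fun s3 => S2 fun c3 => bif tb2 c3 s3 r3 a3 s2 then
          (S2 fun s4 => S2 fun c4 => bif tb2 c4 s4 r4 a4 s3 then
            (S2 fun c5 => bif tb2 c5 t r5 a5 s4 then ent2 V c0 c1 c2 c3 c4 c5 else 0) else 0) else 0) else 0) else 0) else 0

def chk2 (V r0 r1 r2 r3 r4 r5 : ℕ) : Bool :=
  A2 fun a0 => A2 fun a1 => A2 fun a2 => A2 fun a3 => A2 fun a4 => A2 fun a5 =>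
    and (Nat.ble (row2 V r0 r1 r2 r3 r4 r5 a0 a1 a2 a3 a4 a5)
      (Nat.mul 331 (ent2 V (J2 a0) (J2 a1) (J2 a2) (J2 a3) (J2 a4) (J2 a5)))) (Nat.ble 1 (ent2 V a0 a1 a2 a3 a4 a5))

end Pool.Agent.Helper221.Ice
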