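import Pool.Agent.Helper221.Ice.Norm
import Pool.Agent.Helper221.Ice.Core

namespace Pool.Agent.Helper221.Ice
open Finset Pool.Agent.Helper653.IceUp Pool.Agent.Helper653.IceTwo

section pull
variable {S M : Type} [Fintype S] [AddCommMonoid M]

lemma pull2 (f : S → S → S → M) : ∑ a, ∑ b, ∑ t, f a b t = ∑ t, ∑ a, ∑ b, f a b t := by
  calc ∑ a, ∑ b, ∑ t, f a b t = ∑ a, ∑ t, ∑ b, f a b t := sum_congr rfl fun a _ => sum_comm
    _ = _ := sum_comm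

lemma pull4 (f : S → S → S → S → S → M) :
    ∑ a, ∑ b, ∑ c, ∑ d, ∑ t, f a b c d t = ∑ t, ∑ a, ∑ b, ∑ c, ∑ d, f a b c d t := by
  calc ∑ a, ∑ b, ∑ c, ∑ d, ∑ t, f a b c d t = ∑ a, ∑ b, ∑ t, ∑ c, ∑ d, f a b c d t :=
        sum_congr rfl fun a _ => sum_congr rfl fun b _ => pull2 _
    _ = _ := pull2 (fun a b t => ∑ c, ∑ d, f a b c d t)

lemma pull6 (f : S → S → S → S → S → S → S → M) :
    ∑ a, ∑ b, ∑ c, ∑ d, ∑ e, ∑ g, ∑ t, f a b c d e g t =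
      ∑ t, ∑ a, ∑ b, ∑ c, ∑ d, ∑ e, ∑ g, f a b c d e g t := by
  calc ∑ a, ∑ b, ∑ c, ∑ d, ∑ e, ∑ g, ∑ t, f a b c d e g t =
      ∑ a, ∑ b, ∑ t, ∑ c, ∑ d, ∑ e, ∑ g, f a b c d e g t :=
        sum_congr rfl fun a _ => sum_congr rfl fun b _ => pull4 _
    _ = _ := pull2 (fun a b t => ∑ c, ∑ d, ∑ e, ∑ g, f a b c d e g t)

lemma pull10 (f : S → S → S → S → S → S → S → S → S → S → S → M) :
    ∑ a, ∑ b, ∑ c, ∑ d, ∑ e, ∑ g, ∑ h, ∑ i, ∑ j, ∑ k, ∑ t, f a b c d e g h i j k t =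
      ∑ t, ∑ a, ∑ b, ∑ c, ∑ d, ∑ e, ∑ g, ∑ h, ∑ i, ∑ j, ∑ k, f a b c d e g h i j k t := by
  calc ∑ a, ∑ b, ∑ c, ∑ d, ∑ e, ∑ g, ∑ h, ∑ i, ∑ j, ∑ k, ∑ t, f a b c d e g h i j k t =
      ∑ a, ∑ b, ∑ c, ∑ d, ∑ t, ∑ e, ∑ g, ∑ h, ∑ i, ∑ j, ∑ k, f a b c d e g h i j k t :=
        sum_congr rfl fun a _ => sum_congr rfl fun b _ => sum_congr rfl fun c _ =>
          sum_congr rfl fun d _ => pull6 _
    _ = _ := pull4 (fun a b c d t => ∑ e, ∑ g, ∑ h, ∑ i, ∑ j, ∑ k, f a b c d e g h i j k t)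
end pull

section expand
variable {S : Type} [Fintype S] [DecidableEq S]

lemma pair_sum (w : S → S → S → S → S → S → ℝ) (L : ℕ) [NeZero L] (r a : Fin L → S)
    (v : (Fin L → S) → ℝ) :
    ∑ c, MM w L r a c * v c = ∑ p : Fin L → S × S,
      (∏ z, U w (p z).2 (p z).1 (r z) (a z) (p (z-1)).1) * v (fun z => (p z).2) := by
  unfold MM
  simp only [sum_mul]
  rw [sum_comm, ← Fintype.sum_prod_type',
    ← Equiv.sum_comp (Equiv.arrowProdEquivProdArrow (Fin L) (fun _ => S) (fun _ => S))]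
  rfl

lemma expand4 (w : S → S → S → S → S → S → ℝ) (r a : Fin 4 → S) (v : (Fin 4 → S) → ℝ) :
    ∑ c, MM w 4 r a c * v c =
      ∑ t, ∑ s0, ∑ c0, U w c0 s0 (r 0) (a 0) t * (∑ s1, ∑ c1, U w c1 s1 (r 1) (a 1) s0 *
        (∑ s2, ∑ c2, U w c2 s2 (r 2) (a 2) s1 * (∑ c3, U w c3 t (r 3) (a 3) s2 *
          v ![c0, c1, c2, c3]))) := by
  rw [pair_sum, sum_fin4]
  simp only [Fintype.sum_prod_type]
  rw [pull6 (fun s0 c0 s1 c1 s2 c2 t => ∑ c3, _)]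
  refine sum_congr rfl fun t _ => sum_congr rfl fun s0 _ => sum_congr rfl fun c0 _ => ?_
  simp only [mul_sum]
  refine sum_congr rfl fun s1 _ => sum_congr rfl fun c1 _ => sum_congr rfl fun s2 _ =>
    sum_congr rfl fun c2 _ => sum_congr rfl fun c3 _ => ?_
  rw [Fin.prod_univ_four]
  have e0 : (0 : Fin 4) - 1 = 3 := rfl
  have e1 : (1 : Fin 4) - 1 = 0 := rfl
  have e2 : (2 : Fin 4) - 1 = 1 := rfl
  have e3 : (3 : Fin 4) - 1 = 2 := rfl
  rw [e0, e1, e2, e3]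
  have ev : (fun z => ((![(s0, c0), (s1, c1), (s2, c2), (t, c3)] : Fin 4 → S × S) z).2) =
      ![c0, c1, c2, c3] := by
    funext z; fin_cases z <;> rfl
  rw [ev]
  simp only [Matrix.cons_val]
  ring

lemma expand6 (w : S → S → S → S → S → S → ℝ) (r a : Fin 6 → S) (v : (Fin 6 → S) → ℝ) :
    ∑ c, MM w 6 r a c * v c =
      ∑ t, ∑ s0, ∑ c0, U w c0 s0 (r 0) (a 0) t * (∑ s1, ∑ c1, U w c1 s1 (r 1) (a 1) s0 *
        (∑ s2, ∑ c2, U w c2 s2 (r 2) (a 2) s1 * (∑ s3, ∑ c3, U w c3 s3 (r 3) (a 3) s2 *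
          (∑ s4, ∑ c4, U w c4 s4 (r 4) (a 4) s3 * (∑ c5, U w c5 t (r 5) (a 5) s4 *
          v ![c0, c1, c2, c3, c4, c5]))))) := by
  rw [pair_sum, sum_fin6]
  simp (maxSteps := 100000000) only [Fintype.sum_prod_type]
  rw [pull10 (fun s0 c0 s1 c1 s2 c2 s3 c3 s4 c4 t => ∑ c5, _)]
  refine sum_congr rfl fun t _ => sum_congr rfl fun s0 _ => sum_congr rfl fun c0 _ => ?_
  simp only [mul_sum]
  refine sum_congr rfl fun s1 _ => sum_congr rfl fun c1 _ => sum_congr rfl fun s2 _ =>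
    sum_congr rfl fun c2 _ => sum_congr rfl fun s3 _ => sum_congr rfl fun c3 _ =>
    sum_congr rfl fun s4 _ => sum_congr rfl fun c4 _ => sum_congr rfl fun c5 _ => ?_
  rw [Fin.prod_univ_six]
  have e0 : (0 : Fin 6) - 1 = 5 := rfl
  have e1 : (1 : Fin 6) - 1 = 0 := rfl
  have e2 : (2 : Fin 6) - 1 = 1 := rfl
  have e3 : (3 : Fin 6) - 1 = 2 := rfl
  have e4 : (4 : Fin 6) - 1 = 3 := rfl
  have e5 : (5 : Fin 6) - 1 = 4 := rfl
  rw [e0, e1, e2, e3, e4, e5]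
  have ev : (fun z => ((![(s0, c0), (s1, c1), (s2, c2), (s3, c3), (s4, c4), (t, c5)] :
      Fin 6 → S × S) z).2) = ![c0, c1, c2, c3, c4, c5] := by
    funext z; fin_cases z <;> rfl
  rw [ev]
  simp only [Matrix.cons_val]
  ring

end expand

/-- code of the states of the ice model -/
def cd (x : Option Bool) : ℕ := match x with | none => 0 | some true => 1 | some false => 2
/-- code of the states of the Eulerian model -/
def ce (x : Bool) : ℕ := match x with | true => 1 | false => 0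
def JO : Option Bool ≃ Option Bool := Equiv.optionCongr Equiv.boolNot

lemma cd_J (x : Option Bool) : cd (JO x) = J3 (cd x) := by revert x; decide
lemma ce_J (x : Bool) : ce (Equiv.boolNot x) = J2 (ce x) := by revert x; decide

lemma S3_cast (g : ℕ → ℕ) : ((S3 g : ℕ) : ℝ) = ∑ x : Option Bool, ((g (cd x) : ℕ) : ℝ) := by
  simp only [Fintype.sum_option, Fintype.sum_bool, cd]
  have : S3 g = g 0 + (g 1 + g 2) := rfl
  rw [this]; push_cast; rfl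
lemma S2_cast (g : ℕ → ℕ) : ((S2 g : ℕ) : ℝ) = ∑ x : Bool, ((g (ce x) : ℕ) : ℝ) := by
  simp only [Fintype.sum_bool, ce]
  have : S2 g = g 0 + g 1 := rfl
  rw [this]; push_cast; ring

lemma bif_cast (b : Bool) (x : ℕ) : (((bif b then x else 0 : ℕ)) : ℝ) =
    (((bif b then 1 else 0 : ℕ)) : ℝ) * (x : ℝ) := by
  cases b <;> simp

lemma A3_iff (g : ℕ → Bool) (h : A3 g = true) (x : Option Bool) : g (cd x) = true := by
  have h' : (g 0 && (g 1 && g 2)) = true := h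
  rw [Bool.and_eq_true, Bool.and_eq_true] at h'
  rcases x with _ | (_ | _)
  · exact h'.1
  · exact h'.2.2
  · exact h'.2.1
lemma A2_iff (g : ℕ → Bool) (h : A2 g = true) (x : Bool) : g (ce x) = true := by
  have h' : (g 0 && g 1) = true := h
  rw [Bool.and_eq_true] at h'
  rcases x with _ | _
  · exact h'.1
  · exact h'.2

lemma UI_nat : ∀ c s r a t : Option Bool, (sO fun q => wI q c s r a t) =
    (bif tb3 (cd c) (cd s) (cd r) (cd a) (cd t) then 1 else 0) := by decide +kernel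
lemma UE_nat : ∀ c s r a t : Bool, (sB fun q => wE q c s r a t) =
    (bif tb2 (ce c) (ce s) (ce r) (ce a) (ce t) then 1 else 0) := by decide +kernel

lemma UI (c s r a t : Option Bool) : U wIR c s r a t =
    (((bif tb3 (cd c) (cd s) (cd r) (cd a) (cd t) then 1 else 0 : ℕ)) : ℝ) := by
  rw [← UI_nat]
  unfold U wIR sO
  simp only [Fintype.sum_option, Fintype.sum_bool]
  push_cast; rfl
lemma UE (c s r a t : Bool) : U wER c s r a t =
    (((bif tb2 (ce c) (ce s) (ce r) (ce a) (ce t) then 1 else 0 : ℕ)) : ℝ) := by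
  rw [← UE_nat]
  unfold U wER sB
  simp only [Fintype.sum_bool]
  push_cast; rfl

lemma row3_eq (V : ℕ) (r a : Fin 4 → Option Bool) :
    ∑ c, MM wIR 4 r a c * ((ent3 V (cd (c 0)) (cd (c 1)) (cd (c 2)) (cd (c 3)) : ℕ) : ℝ) =
    ((row3 V (cd (r 0)) (cd (r 1)) (cd (r 2)) (cd (r 3)) (cd (a 0)) (cd (a 1)) (cd (a 2))
      (cd (a 3)) : ℕ) : ℝ) := by
  rw [expand4]
  unfold row3
  simp only [S3_cast]
  refine sum_congr rfl fun t _ => sum_congr rfl fun s0 _ => sum_congr rfl fun c0 _ => ?_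
  rw [bif_cast, UI, S3_cast]
  simp only [S3_cast]
  refine congrArg _ (sum_congr rfl fun s1 _ => sum_congr rfl fun c1 _ => ?_)
  rw [bif_cast, UI, S3_cast]
  simp only [S3_cast]
  refine congrArg _ (sum_congr rfl fun s2 _ => sum_congr rfl fun c2 _ => ?_)
  rw [bif_cast, UI, S3_cast]
  refine congrArg _ (sum_congr rfl fun c3 _ => ?_)
  rw [bif_cast, UI]
  rfl

lemma row2_eq (V : ℕ) (r a : Fin 6 → Bool) :
    ∑ c, MM wER 6 r a c * ((ent2 V (ce (c 0)) (ce (c 1)) (ce (c 2)) (ce (c 3)) (ce (c 4))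
      (ce (c 5)) : ℕ) : ℝ) =
    ((row2 V (ce (r 0)) (ce (r 1)) (ce (r 2)) (ce (r 3)) (ce (r 4)) (ce (r 5)) (ce (a 0)) (ce (a 1))
      (ce (a 2)) (ce (a 3)) (ce (a 4)) (ce (a 5)) : ℕ) : ℝ) := by
  rw [expand6]
  unfold row2
  simp (maxSteps := 100000000) only [S2_cast]
  refine sum_congr rfl fun t _ => sum_congr rfl fun s0 _ => sum_congr rfl fun c0 _ => ?_
  rw [bif_cast, UE, S2_cast]
  simp only [S2_cast]
  refine congrArg _ (sum_congr rfl fun s1 _ => sum_congr rfl fun c1 _ => ?_)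
  rw [bif_cast, UE, S2_cast]
  simp only [S2_cast]
  refine congrArg _ (sum_congr rfl fun s2 _ => sum_congr rfl fun c2 _ => ?_)
  rw [bif_cast, UE, S2_cast]
  simp only [S2_cast]
  refine congrArg _ (sum_congr rfl fun s3 _ => sum_congr rfl fun c3 _ => ?_)
  rw [bif_cast, UE, S2_cast]
  simp only [S2_cast]
  refine congrArg _ (sum_congr rfl fun s4 _ => sum_congr rfl fun c4 _ => ?_)
  rw [bif_cast, UE, S2_cast]
  refine congrArg _ (sum_congr rfl fun c5 _ => ?_)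
  rw [bif_cast, UE]
  rfl

lemma wI_J : ∀ o1 o2 o3 i1 i2 i3, wI o1 o2 o3 i1 i2 i3 = wI o1 (JO i2) o3 i1 (JO o2) i3 := by
  decide +kernel
lemma wE_J : ∀ o1 o2 o3 i1 i2 i3, wE o1 o2 o3 i1 i2 i3 =
    wE o1 (Equiv.boolNot i2) o3 i1 (Equiv.boolNot o2) i3 := by
  decide +kernel
lemma wIR_nn (o1 o2 o3 i1 i2 i3 : Option Bool) : 0 ≤ wIR o1 o2 o3 i1 i2 i3 := by
  unfold wIR; positivity
lemma wER_nn (o1 o2 o3 i1 i2 i3 : Bool) : 0 ≤ wER o1 o2 o3 i1 i2 i3 := by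
  unfold wER; positivity

lemma NB_I (r : Fin 4 → Option Bool) (V : ℕ)
    (h : chk3 V (cd (r 0)) (cd (r 1)) (cd (r 2)) (cd (r 3)) = true) : NB 193 (MM wIR 4 r) := by
  have h' : ∀ a0 a1 a2 a3 : Option Bool,
      row3 V (cd (r 0)) (cd (r 1)) (cd (r 2)) (cd (r 3)) (cd a0) (cd a1) (cd a2) (cd a3) ≤
        193 * ent3 V (J3 (cd a0)) (J3 (cd a1)) (J3 (cd a2)) (J3 (cd a3)) ∧
      1 ≤ ent3 V (cd a0) (cd a1) (cd a2) (cd a3) := by
    intro a0 a1 a2 a3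
    have h1 := A3_iff _ (A3_iff _ (A3_iff _ (A3_iff _ h a0) a1) a2) a3
    rw [Bool.and_eq_true] at h1
    exact ⟨Nat.le_of_ble_eq_true h1.1, Nat.le_of_ble_eq_true h1.2⟩
  refine NB_row wIR JO (by decide) (fun o1 o2 o3 i1 i2 i3 => ?_) wIR_nn 4 r 193 (by norm_num)
    (fun c => ((ent3 V (cd (c 0)) (cd (c 1)) (cd (c 2)) (cd (c 3)) : ℕ) : ℝ)) (fun a => ?_)
    (fun a => ?_)
  · unfold wIR; rw [wI_J]
  · have := (h' (a 0) (a 1) (a 2) (a 3)).2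
    exact_mod_cast this
  · rw [row3_eq]
    simp only [cd_J]
    exact_mod_cast (h' (a 0) (a 1) (a 2) (a 3)).1

lemma NB_E (r : Fin 6 → Bool) (V : ℕ)
    (h : chk2 V (ce (r 0)) (ce (r 1)) (ce (r 2)) (ce (r 3)) (ce (r 4)) (ce (r 5)) = true) :
    NB 331 (MM wER 6 r) := by
  have h' : ∀ a0 a1 a2 a3 a4 a5 : Bool,
      row2 V (ce (r 0)) (ce (r 1)) (ce (r 2)) (ce (r 3)) (ce (r 4)) (ce (r 5)) (ce a0) (ce a1) (ce a2)
        (ce a3) (ce a4) (ce a5) ≤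
        331 * ent2 V (J2 (ce a0)) (J2 (ce a1)) (J2 (ce a2)) (J2 (ce a3)) (J2 (ce a4)) (J2 (ce a5)) ∧
      1 ≤ ent2 V (ce a0) (ce a1) (ce a2) (ce a3) (ce a4) (ce a5) := by
    intro a0 a1 a2 a3 a4 a5
    have h1 := A2_iff _ (A2_iff _ (A2_iff _ (A2_iff _ (A2_iff _ (A2_iff _ h a0) a1) a2) a3) a4) a5
    rw [Bool.and_eq_true] at h1
    exact ⟨Nat.le_of_ble_eq_true h1.1, Nat.le_of_ble_eq_true h1.2⟩
  refine NB_row wER Equiv.boolNot (by decide) (fun o1 o2 o3 i1 i2 i3 => ?_) wER_nn 6 r 331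
    (by norm_num)
    (fun c => ((ent2 V (ce (c 0)) (ce (c 1)) (ce (c 2)) (ce (c 3)) (ce (c 4)) (ce (c 5)) : ℕ) : ℝ))
    (fun a => ?_) (fun a => ?_)
  · unfold wER; rw [wE_J]
  · have := (h' (a 0) (a 1) (a 2) (a 3) (a 4) (a 5)).2
    exact_mod_cast this
  · rw [row2_eq]
    simp only [ce_J]
    exact_mod_cast (h' (a 0) (a 1) (a 2) (a 3) (a 4) (a 5)).1

end Pool.Agent.Helper221.Ice
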