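import Pool.Agent.Results.MP_7c8df0_mp.Limit

/-! Row sums of the layer transfer matrix of a strip of width `L`, bounded by the operator norms of the
row matrices. -/

namespace Pool.Agent.Helper221.Ice
open Finset Pool.Agent.Helper653.IceUp Pool.Agent.Helper653.IceTwo

section norm
variable {A : Type} [Fintype A] [DecidableEq A]

/-- product of a list of matrices -/
noncomputable def PP : (m : ℕ) → (Fin m → Matrix A A ℝ) → Matrix A A ℝ
  | 0, _ => 1
  | m+1, T => T 0 * PP m (fun i => T i.succ)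

lemma path_sum' (m : ℕ) (T : Fin m → Matrix A A ℝ) (g : A → A → ℝ) :
    ∑ σ : Fin (m+1) → A, (∏ t : Fin m, T t (σ t.castSucc) (σ t.succ)) * g (σ 0) (σ (Fin.last m)) =
    ∑ p, ∑ q, (PP m T) p q * g p q := by
  induction m generalizing g with
  | zero =>
    rw [← Equiv.sum_comp (Equiv.funUnique (Fin 1) A).symm]
    simp [PP, Matrix.one_apply]
  | succ m ih =>
    rw [← Equiv.sum_comp (Fin.consEquiv (fun _ : Fin (m+2) => A)), Fintype.sum_prod_type]
    have : ∀ p : A, ∑ τ : Fin (m+1) → A,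
        (∏ t : Fin (m+1), T t ((Fin.consEquiv (fun _ : Fin (m+2) => A)) (p, τ) t.castSucc)
          ((Fin.consEquiv (fun _ : Fin (m+2) => A)) (p, τ) t.succ)) *
          g ((Fin.consEquiv (fun _ : Fin (m+2) => A)) (p, τ) 0)
            ((Fin.consEquiv (fun _ : Fin (m+2) => A)) (p, τ) (Fin.last (m+1))) =
        ∑ q, (PP (m+1) T) p q * g p q := by
      intro p
      have h1 := ih (fun i => T i.succ) (fun r q => T 0 p r * g p q)
      have h2 : ∀ τ : Fin (m+1) → A,
        (∏ t : Fin (m+1), T t ((Fin.consEquiv (fun _ : Fin (m+2) => A)) (p, τ) t.castSucc)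
          ((Fin.consEquiv (fun _ : Fin (m+2) => A)) (p, τ) t.succ)) *
          g ((Fin.consEquiv (fun _ : Fin (m+2) => A)) (p, τ) 0)
            ((Fin.consEquiv (fun _ : Fin (m+2) => A)) (p, τ) (Fin.last (m+1))) =
        (∏ t : Fin m, T t.succ (τ t.castSucc) (τ t.succ)) * (T 0 p (τ 0) * g p (τ (Fin.last m))) := by
        intro τ
        rw [Fin.prod_univ_succ]
        have e0 : (Fin.consEquiv (fun _ : Fin (m+2) => A)) (p, τ) = (Fin.cons p τ : Fin (m+2) → A) := rfl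
        rw [e0]
        have e1 : ∀ t : Fin m, (Fin.cons p τ : Fin (m+2) → A) (t.succ.castSucc) = τ t.castSucc := by
          intro t
          rw [← Fin.succ_castSucc, Fin.cons_succ]
        have e2 : (Fin.cons p τ : Fin (m+2) → A) (Fin.last (m+1)) = τ (Fin.last m) := by
          rw [← Fin.succ_last, Fin.cons_succ]
        simp only [Fin.castSucc_zero, Fin.cons_zero, Fin.cons_succ, e1, e2]
        ring
      simp only [h2]
      rw [h1, Finset.sum_comm]
      refine Finset.sum_congr rfl (fun q _ => ?_)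
      rw [PP, Matrix.mul_apply, Finset.sum_mul]
      refine Finset.sum_congr rfl (fun r _ => ?_)
      ring
    exact Finset.sum_congr rfl (fun p _ => this p)

/-- the norm of `M` for the Euclidean norm is at most `K` -/
def NB (K : ℝ) (M : Matrix A A ℝ) : Prop :=
  ∀ x : A → ℝ, ∑ i, (∑ j, M i j * x j)^2 ≤ K^2 * ∑ j, x j^2

lemma NB.mul {K L : ℝ} {M N : Matrix A A ℝ} (hM : NB K M) (hN : NB L N) : NB (K*L) (M*N) := by
  intro x
  have h := hM (fun j => ∑ k, N j k * x k)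
  have h2 := hN x
  calc ∑ i, (∑ j, (M*N) i j * x j)^2 = ∑ i, (∑ j, M i j * ∑ k, N j k * x k)^2 := by
        refine sum_congr rfl fun i _ => ?_
        congr 1
        simp only [Matrix.mul_apply, sum_mul, mul_sum]
        rw [sum_comm]
        exact sum_congr rfl fun j _ => sum_congr rfl fun k _ => by ring
    _ ≤ K^2 * ∑ j, (∑ k, N j k * x k)^2 := h
    _ ≤ K^2 * (L^2 * ∑ j, x j^2) := mul_le_mul_of_nonneg_left h2 (sq_nonneg K)
    _ = (K*L)^2 * ∑ j, x j^2 := by ring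

lemma NB_one : NB (1:ℝ) (1 : Matrix A A ℝ) := by
  intro x
  simp [Matrix.one_apply]

lemma NB_PP {K : ℝ} (m : ℕ) (T : Fin m → Matrix A A ℝ) (h : ∀ i, NB K (T i)) :
    NB (K^m) (PP m T) := by
  induction m with
  | zero => simpa [PP] using NB_one
  | succ m ih =>
    have := (h 0).mul (ih (fun i => T i.succ) (fun i => h i.succ))
    rw [PP, pow_succ']
    exact this

lemma NB_entry {K : ℝ} (hK : 0 ≤ K) {M : Matrix A A ℝ} (h : NB K M) (p : A) : M p p ≤ K := by
  have h1 := h (Pi.single p 1)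
  have h2 : ∑ j, (Pi.single p (1:ℝ) : A → ℝ) j ^ 2 = 1 := by
    rw [Finset.sum_eq_single p]
    · simp
    · intro b _ hb; simp [Pi.single_eq_of_ne hb]
    · simp
  have h3 : ∀ i, ∑ j, M i j * (Pi.single p (1:ℝ) : A → ℝ) j = M i p := by
    intro i
    rw [Finset.sum_eq_single p]
    · simp
    · intro b _ hb; simp [Pi.single_eq_of_ne hb]
    · simp
  simp only [h3, h2, mul_one] at h1
  have h4 : (M p p)^2 ≤ K^2 :=
    (Finset.single_le_sum (f := fun i => (M i p)^2) (fun i _ => sq_nonneg _) (Finset.mem_univ p)).trans h1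
  exact (abs_le_of_sq_le_sq' h4 hK).2

lemma cyc_prod {K : ℝ} (hK : 0 ≤ K) (b : ℕ) (M : Fin (b+1) → Matrix A A ℝ) (h : ∀ y, NB K (M y)) :
    ∑ t : Fin (b+1) → A, ∏ y, M y (t (y-1)) (t y) ≤ Fintype.card A * K^(b+1) := by
  have e0 : (0 : Fin (b+1)) - 1 = Fin.last b := by
    rw [sub_eq_iff_eq_add]; exact (Fin.last_add_one b).symm
  have e1 : ∀ i : Fin b, i.succ - 1 = i.castSucc := by
    intro i
    rw [sub_eq_iff_eq_add]; exact (Fin.coeSucc_eq_succ).symm
  have h1 : ∑ t : Fin (b+1) → A, ∏ y, M y (t (y-1)) (t y) =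
      ∑ p, ∑ q, (PP b (fun i => M i.succ)) p q * M 0 q p := by
    rw [← path_sum' b (fun i => M i.succ) (fun p q => M 0 q p)]
    refine sum_congr rfl fun t _ => ?_
    rw [Fin.prod_univ_succ, e0, mul_comm]
    congr 1
    exact prod_congr rfl fun i _ => by rw [e1]
  rw [h1]
  have h2 : ∀ p, ∑ q, (PP b (fun i => M i.succ)) p q * M 0 q p ≤ K^(b+1) := by
    intro p
    have h3 := (NB_PP b (fun i => M i.succ) (fun i => h i.succ)).mul (h 0)
    have h4 := NB_entry (mul_nonneg (pow_nonneg hK b) hK) h3 p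
    rw [Matrix.mul_apply] at h4
    rw [pow_succ]
    exact h4
  calc ∑ p, ∑ q, (PP b (fun i => M i.succ)) p q * M 0 q p ≤ ∑ _p : A, K^(b+1) :=
        sum_le_sum fun p _ => h2 p
    _ = _ := by simp

/-- Schur test -/
lemma NB_schur (M : Matrix A A ℝ) (hM : ∀ i j, 0 ≤ M i j) (u v : A → ℝ)
    (hv : ∀ i, 0 < v i) (K : ℝ) (hK : 0 ≤ K)
    (h1 : ∀ i, ∑ j, M i j * v j ≤ K * u i) (h2 : ∀ j, ∑ i, M i j * u i ≤ K * v j) : NB K M := by
  intro x
  have hi : ∀ i, (∑ j, M i j * x j)^2 ≤ (K * u i) * ∑ j, M i j * (x j^2 / v j) := by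
    intro i
    have hcs := Finset.sum_sq_le_sum_mul_sum_of_sq_eq_mul (univ : Finset A)
      (f := fun j => M i j * v j) (g := fun j => M i j * (x j^2 / v j)) (r := fun j => M i j * x j)
      (fun j _ => mul_nonneg (hM i j) (hv j).le)
      (fun j _ => mul_nonneg (hM i j) (div_nonneg (sq_nonneg _) (hv j).le))
      (fun j _ => by have := (hv j).ne'; field_simp)
    refine hcs.trans (mul_le_mul_of_nonneg_right (h1 i) ?_)
    exact sum_nonneg fun j _ => mul_nonneg (hM i j) (div_nonneg (sq_nonneg _) (hv j).le)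
  calc ∑ i, (∑ j, M i j * x j)^2 ≤ ∑ i, (K * u i) * ∑ j, M i j * (x j^2 / v j) :=
        sum_le_sum fun i _ => hi i
    _ = ∑ j, (K * (x j^2 / v j)) * ∑ i, M i j * u i := by
        simp only [mul_sum]
        rw [sum_comm]
        exact sum_congr rfl fun j _ => sum_congr rfl fun i _ => by ring
    _ ≤ ∑ j, (K * (x j^2 / v j)) * (K * v j) :=
        sum_le_sum fun j _ => mul_le_mul_of_nonneg_left (h2 j)
          (mul_nonneg hK (div_nonneg (sq_nonneg _) (hv j).le))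
    _ = K^2 * ∑ j, x j^2 := by
        rw [mul_sum]
        refine sum_congr rfl fun j _ => ?_
        have := (hv j).ne'
        field_simp

end norm

section model
variable {S : Type} [Fintype S] [DecidableEq S]

/-- weight of a vertex, summed over its upper edge -/
noncomputable def U (w : S → S → S → S → S → S → ℝ) (c s r a t : S) : ℝ := ∑ q, w q c s r a t

/-- matrix of a row of length `L` with lower vertical edges `r` and free upper vertical edges -/
noncomputable def MM (w : S → S → S → S → S → S → ℝ) (L : ℕ) [NeZero L] (r : Fin L → S) :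
    Matrix (Fin L → S) (Fin L → S) ℝ := fun a c =>
  ∑ s : Fin L → S, ∏ z, U w (c z) (s z) (r z) (a z) (s (z-1))

lemma rowsum (w : S → S → S → S → S → S → ℝ) (b L : ℕ) [NeZero b] [NeZero L]
    (p : Fin b → Fin L → S) :
    ∑ q, LT w b L p q = ∑ t : Fin b → Fin L → S, ∏ y, MM w L (p y) (t (y-1)) (t y) := by
  unfold Pool.Agent.Helper653.IceUp.LT MM U
  rw [Finset.sum_comm]
  refine Finset.sum_congr rfl (fun t _ => ?_)
  rw [Finset.sum_comm]
  rw [Finset.prod_univ_sum, Fintype.piFinset_univ]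
  refine Finset.sum_congr rfl (fun s _ => ?_)
  have : ∀ y : Fin b, ∏ z : Fin L, ∑ q, w q (t y z) (s y z) (p y z) (t (y-1) z) (s y (z-1)) =
      ∑ q : Fin L → S, ∏ z : Fin L, w (q z) (t y z) (s y z) (p y z) (t (y-1) z) (s y (z-1)) := by
    intro y
    rw [Finset.prod_univ_sum, Fintype.piFinset_univ]
  simp only [this]
  rw [Finset.prod_univ_sum, Fintype.piFinset_univ]

lemma MM_nonneg (w : S → S → S → S → S → S → ℝ) (h0 : ∀ o1 o2 o3 i1 i2 i3, 0 ≤ w o1 o2 o3 i1 i2 i3)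
    (L : ℕ) [NeZero L] (r a c : Fin L → S) : 0 ≤ MM w L r a c :=
  sum_nonneg fun _ _ => prod_nonneg fun _ _ => sum_nonneg fun _ _ => h0 _ _ _ _ _ _

lemma pw (B K : ℝ) (n : ℕ) : ((B * K^n)^n * B^n)^n = K^(n^3) * (B^2)^(n^2) := by
  simp only [mul_pow, ← pow_mul]
  ring

/-- main inequality for strips of even width `L` -/
lemma Z_strip (w : S → S → S → S → S → S → ℝ) (r : S ≃ S)
    (hw : ∀ o1 o2 o3 i1 i2 i3, w o1 o2 o3 i1 i2 i3 = w i1 (r o2) (r o3) o1 (r i2) (r i3))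
    (hw2 : ∀ o1 o2 o3 i1 i2 i3, w o1 o2 o3 i1 i2 i3 = w o2 o3 o1 i2 i3 i1)
    (h0 : ∀ o1 o2 o3 i1 i2 i3, 0 ≤ w o1 o2 o3 i1 i2 i3)
    (L n : ℕ) [NeZero L] [NeZero n] (hL : Even L) (hLn : L ≤ n) (K : ℝ) (hK : 0 ≤ K)
    (hNB : ∀ p : Fin L → S, NB K (MM w L p)) :
    Z w n n n ^ L ≤ K^(n^3) * ((Fintype.card (Fin L → S) : ℝ)^2)^(n^2) := by
  obtain ⟨m, rfl⟩ : ∃ m, n = m + 1 := ⟨n - 1, by have := NeZero.ne n; omega⟩
  set n := m + 1 with hn
  set B : ℝ := (Fintype.card (Fin L → S) : ℝ) with hB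
  have hB0 : 0 ≤ B := by positivity
  have z1 : Z w n n n ^ L ≤ Z w L n n ^ n :=
    Pool.Agent.Results.MP_7c8df0_mp.Limit.Z_cmp1 w r hw h0 L n n n hL hLn
  have z2 : Z w L n n ≤ (B * K^n)^n * B^n := by
    rw [Z_rot w hw2 L n n, Z_cyc]
    have h := cyc_row m (LT w n L) (LT_nonneg w h0 n L) (fun _ => 1) (B * K^n)
      (mul_nonneg hB0 (pow_nonneg hK _)) (fun _ => le_refl _) (fun p => by
        simp only [mul_one]
        rw [rowsum]
        exact cyc_prod hK m (fun y => MM w L (p y)) (fun y => hNB (p y)))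
    refine h.trans (le_of_eq ?_)
    congr 1
    simp only [sum_const, card_univ, nsmul_eq_mul, mul_one, hB]
    rw [Fintype.card_fun (α := Fin n)]
    simp
  exact z1.trans ((pow_le_pow_left₀ (Z_nonneg w h0 L n n) z2 n).trans (le_of_eq (pw B K n)))

/-- the second half of the Schur test follows from the first by the reflection symmetry -/
lemma NB_row (w : S → S → S → S → S → S → ℝ) (J : S ≃ S) (hJ : ∀ x, J (J x) = x)
    (hw3 : ∀ o1 o2 o3 i1 i2 i3, w o1 o2 o3 i1 i2 i3 = w o1 (J i2) o3 i1 (J o2) i3)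
    (h0 : ∀ o1 o2 o3 i1 i2 i3, 0 ≤ w o1 o2 o3 i1 i2 i3)
    (L : ℕ) [NeZero L] (r : Fin L → S) (K : ℝ) (hK : 0 ≤ K) (v : (Fin L → S) → ℝ)
    (hv : ∀ a, 0 < v a)
    (h1 : ∀ a, ∑ c, MM w L r a c * v c ≤ K * v (fun z => J (a z))) : NB K (MM w L r) := by
  have hs : ∀ a c, MM w L r a c = MM w L r (fun z => J (c z)) (fun z => J (a z)) := by
    intro a c
    unfold MM U
    refine sum_congr rfl fun s _ => prod_congr rfl fun z _ => sum_congr rfl fun q _ => ?_
    rw [hw3]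
  refine NB_schur _ (fun i j => MM_nonneg w h0 L r i j) (fun a => v (fun z => J (a z))) v hv K hK h1 ?_
  intro j
  let e : (Fin L → S) ≃ (Fin L → S) := Equiv.piCongrRight (fun _ => J)
  have he : ∀ a : Fin L → S, e a = fun z => J (a z) := fun _ => rfl
  have h2 := h1 (fun z => J (j z))
  have e2 : (fun z => J (J (j z))) = j := by funext z; exact hJ _
  rw [e2] at h2
  refine (le_of_eq ?_).trans h2
  rw [← Equiv.sum_comp e (fun c => MM w L r (fun z => J (j z)) c * v c)]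
  refine sum_congr rfl fun i _ => ?_
  rw [hs i j, he]

end model

lemma root_bound' (b : ℕ → ℝ) (hb : ∀ n, 0 ≤ b n) (K C : ℝ) (hK : 0 < K) (hC : 0 < C) (L : ℕ)
    (hL : 0 < L) (h : ∀ n : ℕ, L ≤ n → (b n)^L ≤ K^(n^3) * C^(n^2)) (ε : ℝ) (hε : 0 < ε) :
    ∃ n0 : ℕ, ∀ n : ℕ, n0 ≤ n → (b n)^(1/((n:ℝ)^3)) ≤ K^((1:ℝ)/L) + ε := by
  have hL' : (0:ℝ) < L := by exact_mod_cast hL
  have hlim : Filter.Tendsto (fun n : ℕ => K^((1:ℝ)/L) * C^(1/((L:ℝ)*(n:ℝ)))) Filter.atTop
      (nhds (K^((1:ℝ)/L) * C^(0:ℝ))) := by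
    refine Filter.Tendsto.const_mul _ ?_
    have h0 : Filter.Tendsto (fun n : ℕ => 1/((L:ℝ)*(n:ℝ))) Filter.atTop (nhds 0) := by
      have h1 : Filter.Tendsto (fun n : ℕ => (1/(L:ℝ)) * (1/(n:ℝ))) Filter.atTop (nhds ((1/(L:ℝ)) * 0)) :=
        Filter.Tendsto.const_mul _ tendsto_one_div_atTop_nhds_zero_nat
      simp only [mul_zero] at h1
      refine h1.congr (fun n => ?_)
      by_cases hn : (n:ℝ) = 0
      · rw [hn]; simp
      · field_simp
    exact (Real.continuousAt_const_rpow hC.ne').tendsto.comp h0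
  rw [Real.rpow_zero, mul_one] at hlim
  have hev := hlim.eventually (gt_mem_nhds (show K^((1:ℝ)/L) < K^((1:ℝ)/L) + ε by linarith))
  obtain ⟨n1, hn1⟩ := Filter.eventually_atTop.mp hev
  refine ⟨max n1 (L+1), fun n hn => ?_⟩
  have hn2 : L + 1 ≤ n := le_trans (le_max_right _ _) hn
  have hn3 := hn1 n (le_trans (le_max_left _ _) hn)
  refine le_trans ?_ hn3.le
  have hnpos : (0:ℝ) < n := by exact_mod_cast (by omega : 0 < n)
  have e1 : (b n)^(1/((n:ℝ)^3)) = ((b n)^L)^(1/((L:ℝ)*(n:ℝ)^3)) := by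
    rw [← Real.rpow_natCast (b n) L, ← Real.rpow_mul (hb n)]
    congr 1
    field_simp
  rw [e1]
  have e2 : (K^(n^3) * C^(n^2))^(1/((L:ℝ)*(n:ℝ)^3)) = K^((1:ℝ)/L) * C^(1/((L:ℝ)*(n:ℝ))) := by
    rw [Real.mul_rpow (by positivity) (by positivity), ← Real.rpow_natCast K, ← Real.rpow_natCast C,
      ← Real.rpow_mul hK.le, ← Real.rpow_mul hC.le]
    congr 2
    · push_cast; field_simp
    · push_cast; field_simp
  rw [← e2]
  exact Real.rpow_le_rpow (by have := hb n; positivity) (h n (by omega)) (by positivity)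

lemma sum_cons {α M : Type} [Fintype α] [AddCommMonoid M] (n : ℕ) (f : (Fin (n+1) → α) → M) :
    ∑ t, f t = ∑ a, ∑ s : Fin n → α, f (Fin.cons a s) := by
  rw [← Equiv.sum_comp (Fin.consEquiv (fun _ => α)), Fintype.sum_prod_type]
  rfl

lemma sum_fin4 {α M : Type} [Fintype α] [AddCommMonoid M] (f : (Fin 4 → α) → M) :
    ∑ t, f t = ∑ a, ∑ b, ∑ c, ∑ d, f ![a, b, c, d] := by
  simp only [sum_cons, Fintype.sum_unique]
  rfl

lemma sum_fin6 {α M : Type} [Fintype α] [AddCommMonoid M] (f : (Fin 6 → α) → M) :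
    ∑ t, f t = ∑ a, ∑ b, ∑ c, ∑ d, ∑ e, ∑ g, f ![a, b, c, d, e, g] := by
  simp only [sum_cons, Fintype.sum_unique]
  rfl

end Pool.Agent.Helper221.Ice
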